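import Pool.Agent.Helper80.AD.GoalsB

/-! # Project AD, packet RLOC: the local inequality, summed over the embeddings. -/

set_option autoImplicit false

open MvPolynomial

noncomputable section

namespace Pool.Agent.Helper3.AD

open Pool.Agent.Helper80.HD Pool.Agent.Helper80.AD

/-- the logarithm of the absolute value of the norm -/
theorem log_norm {L F' Ω : Type} [Field L] [CharZero L] [Field F'] [Algebra L F'] [FiniteDimensional L F']
    [Field Ω] [IsAlgClosed Ω] [Algebra L Ω] (w : AbsoluteValue Ω ℝ) (x : F') (hx : x ≠ 0) :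
    Real.log (w (algebraMap L Ω (Algebra.norm L x))) = ∑ τ : F' →ₐ[L] Ω, Real.log (w (τ x)) := by
  rw [Algebra.norm_eq_prod_embeddings, map_prod, Real.log_prod]
  intro τ _
  rw [AbsoluteValue.ne_zero_iff]
  exact fun h => hx ((map_eq_zero τ).1 h)

theorem sum_swap {ι T : Type} [Fintype ι] [Fintype T] (a : ι → ℝ) (f : ι → T → ℝ) (d : ℝ) :
    ∑ τ : T, (∑ i, a i * f i τ + d) = ∑ i, a i * (∑ τ, f i τ) + (Fintype.card T : ℝ) * d := by
  rw [Finset.sum_add_distrib, Finset.sum_comm, Finset.sum_const, nsmul_eq_mul, Finset.card_univ]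
  congr 1
  exact Finset.sum_congr rfl fun i _ => (Finset.mul_sum _ _ _).symm

theorem rloc (hNAH : S_NAH) (hARH : S_ARH) (hEXT : S_EXT) (hG : S_GNM) : S_RLOC := by
  intro N m a
  obtain ⟨c, hc0, hc⟩ := hARH N
  refine ⟨c * ∑ i, |(a i : ℝ)|, mul_nonneg hc0 (Finset.sum_nonneg fun i _ => abs_nonneg _), ?_⟩
  intro K L F' F _ _ _ _ _ _ _ _ φ j hcomp Γ Γ' t g y hg hy hna har
  have hφ : Function.Injective φ := φ.injective
  have hφg : φ g ≠ 0 := fun h => hg ((map_eq_zero φ).1 h)
  have hφy : ∀ i, (fun l => φ (y i l)) ≠ 0 := by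
    intro i h0
    apply hy i
    ext l
    have := congrFun h0 l
    simp only [Pi.zero_apply] at this
    exact (map_eq_zero φ).1 this
  constructor
  · intro ω hω
    obtain ⟨Ω, _, _, w, ι, hw, hwι⟩ := hEXT L ω hω
    let _ : Algebra L Ω := ι.toAlgebra
    have hmap : ∀ P : MvPolynomial (Fin (N + 1)) L, gn w (map (algebraMap L Ω) P) = gn ω P :=
      fun P => (hG.2.1 L (Fin (N + 1)) ω).2.2.2.2.2 Ω (algebraMap L Ω) w hwι P
    have e0 : Real.log (ω (Algebra.norm L (φ g))) = ∑ τ : F' →ₐ[L] Ω, Real.log (w (τ (φ g))) := by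
      rw [← log_norm w (φ g) hφg]
      congr 1
      exact (hwι _).symm
    have e1 : ∀ i, Real.log (gn ω (normForm L F' (fun l => φ (y i l)))) =
        ∑ τ : F' →ₐ[L] Ω, Real.log (vn w (fun l => τ (φ (y i l)))) := by
      intro i
      have h := hNAH L F' Ω w hw N (fun l => φ (y i l)) (hφy i)
      rw [hmap] at h
      exact h
    have key : ∀ τ : F' →ₐ[L] Ω, Real.log (w (τ (φ g))) ≤
        ∑ i, (a i : ℝ) * Real.log (vn w (fun l => τ (φ (y i l)))) +
          t * Real.log (Γ (ω.comp (algebraMap K L).injective)) := by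
      intro τ
      set κ : F →+* Ω := (τ : F' →+* Ω).comp φ with hκ
      have h1 := hna (w.comp κ.injective) (by
        intro x z
        show w (κ (x + z)) ≤ max (w (κ x)) (w (κ z))
        rw [map_add]
        exact hw _ _)
      have h2 : (w.comp κ.injective).comp j.injective = ω.comp (algebraMap K L).injective := by
        ext b
        show w (κ (j b)) = ω (algebraMap K L b)
        rw [← hwι]
        congr 1
        have h3 : φ (j b) = algebraMap L F' (algebraMap K L b) := by
          have := RingHom.congr_fun hcomp b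
          exact this.symm
        rw [hκ, RingHom.comp_apply, h3]
        exact τ.commutes _
      rw [h2] at h1
      exact h1
    rw [e0]
    refine (Finset.sum_le_sum fun τ _ => key τ).trans (le_of_eq ?_)
    rw [sum_swap, AlgHom.card]
    congr 1
    exact Finset.sum_congr rfl fun i _ => by rw [e1 i]
  · intro ι
    let _ : Algebra L ℂ := ι.toAlgebra
    have hι : (algebraMap L ℂ) = ι := rfl
    have e0 : Real.log (absC (ι (Algebra.norm L (φ g)))) = ∑ τ : F' →ₐ[L] ℂ, Real.log (absC (τ (φ g))) := by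
      rw [← log_norm absC (φ g) hφg]
      rfl
    have e1 : ∀ i, (a i : ℝ) * ∑ τ : F' →ₐ[L] ℂ, Real.log (vn absC (fun l => τ (φ (y i l)))) ≤
        (a i : ℝ) * Real.log (gn absC (map ι (normForm L F' (fun l => φ (y i l))))) +
          |(a i : ℝ)| * (c * (Module.finrank L F' : ℝ)) := by
      intro i
      have h := hc L F' (fun l => φ (y i l)) (hφy i)
      rw [hι] at h
      set A := Real.log (gn absC (map ι (normForm L F' (fun l => φ (y i l)))))
      set S := ∑ τ : F' →ₐ[L] ℂ, Real.log (vn absC (fun l => τ (φ (y i l))))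
      have h1 : (a i : ℝ) * (S - A) ≤ |(a i : ℝ)| * (c * (Module.finrank L F' : ℝ)) := by
        refine (le_abs_self _).trans ?_
        rw [abs_mul, abs_sub_comm S A]
        exact mul_le_mul_of_nonneg_left h (abs_nonneg _)
      linarith
    have key : ∀ τ : F' →ₐ[L] ℂ, Real.log (absC (τ (φ g))) ≤
        ∑ i, (a i : ℝ) * Real.log (vn absC (fun l => τ (φ (y i l)))) + t * Γ' := by
      intro τ
      exact har ((τ : F' →+* ℂ).comp φ)
    rw [e0]
    refine (Finset.sum_le_sum fun τ _ => key τ).trans ?_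
    rw [sum_swap, AlgHom.card]
    have h1 := Finset.sum_le_sum (s := Finset.univ) fun i _ => e1 i
    rw [Finset.sum_add_distrib, ← Finset.sum_mul] at h1
    linarith

end Pool.Agent.Helper3.AD
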